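import Pool.Agent.BEN.StmtsA

/-!
# Squad BEN (MP_be01ff_an), row LEN: the energy of the approximate solution (copy of row LDE of
squad BEF by helper47)
-/

namespace Pool.Agent.BEN.H60

open Set Filter Topology MeasureTheory
open scoped InnerProductSpace
open Pool.Agent.BE01 Pool.Agent.BEF Pool.Agent.BEN

noncomputable section

/-- Perturbation of the sum of two squares. -/
theorem two_sq {H : Type} [NormedAddCommGroup H] [InnerProductSpace ℝ H] (a b E1 E2 : H)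
    (ω s r : ℝ) (hω : 0 < ω) (hr : 0 ≤ r) (hrs : r ^ 2 = s)
    (hab : ‖a‖ ^ 2 + ‖b‖ ^ 2 = ω ^ 2 * s) (h1 : ‖E1‖ ≤ ω / 10 * r) (h2 : ‖E2‖ ≤ ω / 10 * r) :
    ω ^ 2 / 2 * s ≤ ‖a + E1‖ ^ 2 + ‖b + E2‖ ^ 2 ∧
      ‖a + E1‖ ^ 2 + ‖b + E2‖ ^ 2 ≤ 2 * ω ^ 2 * s := by
  have ha : ‖a‖ ≤ ω * r := by
    refine abs_le_of_sq_le_sq' ?_ (by positivity) |>.2
    rw [mul_pow, hrs]
    nlinarith [sq_nonneg ‖b‖]
  have hb : ‖b‖ ≤ ω * r := by
    refine abs_le_of_sq_le_sq' ?_ (by positivity) |>.2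
    rw [mul_pow, hrs]
    nlinarith [sq_nonneg ‖a‖]
  have p1 : ‖a‖ * ‖E1‖ ≤ (ω * r) * (ω / 10 * r) :=
    mul_le_mul ha h1 (norm_nonneg _) (by positivity)
  have p2 : ‖b‖ * ‖E2‖ ≤ (ω * r) * (ω / 10 * r) :=
    mul_le_mul hb h2 (norm_nonneg _) (by positivity)
  have p3 : (ω * r) * (ω / 10 * r) = ω ^ 2 * s / 10 := by
    rw [← hrs]
    ring
  rw [p3] at p1 p2
  have i1 := abs_le.mp (abs_real_inner_le_norm a E1)
  have i2 := abs_le.mp (abs_real_inner_le_norm b E2)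
  have q1 : ‖E1‖ ^ 2 ≤ (ω / 10 * r) ^ 2 := pow_le_pow_left₀ (norm_nonneg _) h1 2
  have q2 : ‖E2‖ ^ 2 ≤ (ω / 10 * r) ^ 2 := pow_le_pow_left₀ (norm_nonneg _) h2 2
  have q3 : (ω / 10 * r) ^ 2 = ω ^ 2 * s / 100 := by
    rw [← hrs]
    ring
  rw [q3] at q1 q2
  have hs : 0 ≤ ω ^ 2 * s := by
    rw [← hrs]
    positivity
  rw [norm_add_sq_real, norm_add_sq_real]
  constructor
  · nlinarith [sq_nonneg ‖E1‖, sq_nonneg ‖E2‖, i1.1, i2.1]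
  · nlinarith [i1.2, i2.2]

theorem len (GLI : GliStmt) (GDV : GdvStmt) (DFL : DflStmt) (GBD : GbdStmt) (QPX : QpxStmt) :
    LenStmt := by
  intro X H _ _ _ _ W m p a0 ω φ d F P q R hp hω hE hA
  obtain ⟨q', hq', hq⟩ := hA.q_eq
  obtain ⟨hqw1, hpw1, hdq, hdp, hvq, hvp, -, hsq⟩ := QPX X H W m φ F
  have hSq : ∀ ψ z, (ω ^ 2) • W.SX (qx φ ψ z) = qx φ ψ z := by
    intro ψ z
    unfold qx
    rw [map_sum, Finset.smul_sum]
    refine Finset.sum_congr rfl fun i _ => ?_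
    rw [map_smul, smul_comm, hE.2 i]
  have hSe : ∀ ψ z, (ω ^ 2) • W.S (W.e (qx φ ψ z)) = W.e (qx φ ψ z) := by
    intro ψ z
    rw [← W.e_SX, ← map_smul, hSq]
  have hqwG : qx φ ∈ GE (Fin m ⊕ Fin m) X 1 :=
    (GLI _ X X (ContinuousLinearMap.id ℝ X) 1 (qx φ)).2.2.1 hqw1
  have hP2 : (fun ψ z => W.SX (q' ψ z)) ∈ GE (Fin m ⊕ Fin m) X 3 :=
    (GLI _ X X W.SX 3 q').2.1 hq'
  have hP : P = qx φ + (fun ψ z => W.SX (q' ψ z)) := by
    funext ψ z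
    rw [hA.P_eq, hq, map_add, map_smul, hSq]
    rfl
  have e1 : DF ω F P = DF ω F (qx φ) + DF ω F (fun ψ z => W.SX (q' ψ z)) := by
    rw [hP]
    exact (DFL (Fin m ⊕ Fin m) X X (ContinuousLinearMap.id ℝ X) 1 3 _ _ ω F F hqwG hP2).2.2.1
  have hD2 : DF ω F (fun ψ z => W.SX (q' ψ z)) ∈ GE (Fin m ⊕ Fin m) X 3 :=
    (DFL (Fin m ⊕ Fin m) X X (ContinuousLinearMap.id ℝ X) 3 3 _ _ ω F F hP2
      hP2).2.2.2.2.2.2.2.2 p hA.F_mem
  have hdv : dv F (qx φ) ∈ GE (Fin m ⊕ Fin m) X (1 + 2 * p) :=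
    ((GDV _ X 1 (qx φ)).2 hqwG).2.1 p F hA.F_mem
  have hdv3 : dv F (qx φ) ∈ GE (Fin m ⊕ Fin m) X 3 := by
    refine (GLI _ X X (ContinuousLinearMap.id ℝ X) 3 (dv F (qx φ))).2.2.2.1 (p - 1) ?_
    rw [show 3 + 2 * (p - 1) = 1 + 2 * p by omega]
    exact hdv
  -- the errors
  obtain ⟨C1, hC1, b1⟩ := GBD _ H 3 _ ((GLI _ X H W.e 3 (dv F (qx φ))).2.1 hdv3)
  obtain ⟨C2, hC2, b2⟩ := GBD _ H 3 _
    ((GLI _ X H W.e 3 (DF ω F (fun ψ z => W.SX (q' ψ z)))).2.1 hD2)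
  obtain ⟨C3, hC3, b3⟩ := GBD _ H 3 _ ((GLI _ X H (W.R.comp W.e) 3 q').2.1 hq')
  set C : ℝ := C1 + C2 + C3 + 1 with hC
  have hC0 : 0 < C := by positivity
  refine ⟨min 1 (ω / (10 * C)), lt_min one_pos (by positivity), fun ψ z hz => ?_⟩
  have hz1 : ‖z‖ ≤ 1 := hz.trans (min_le_left _ _)
  have hz2 : ‖z‖ ≤ ω / (10 * C) := hz.trans (min_le_right _ _)
  have hz3 : C * ‖z‖ ≤ ω / 10 := by
    rw [le_div_iff₀ (by positivity)] at hz2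
    linarith
  set s : ℝ := ∑ i, z i ^ 2 with hs
  have hs0 : 0 ≤ s := Finset.sum_nonneg fun i _ => sq_nonneg _
  set r : ℝ := Real.sqrt s with hr
  have hr0 : 0 ≤ r := Real.sqrt_nonneg _
  have hrs : r ^ 2 = s := Real.sq_sqrt hs0
  have hzr : ‖z‖ ≤ r := by
    rw [pi_norm_le_iff_of_nonneg hr0]
    intro i
    rw [Real.norm_eq_abs]
    refine Real.abs_le_sqrt ?_
    exact Finset.single_le_sum (f := fun i => z i ^ 2) (fun i _ => sq_nonneg _)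
      (Finset.mem_univ i)
  have hcube : ∀ K : ℝ, 0 ≤ K → K ≤ C → K * ‖z‖ ^ 3 ≤ K * ‖z‖ * r := by
    intro K hK _
    have : ‖z‖ ^ 3 ≤ ‖z‖ * r := by
      have h0 := norm_nonneg z
      nlinarith [mul_nonneg h0 (sub_nonneg.mpr hzr), mul_nonneg (mul_nonneg h0 h0)
        (sub_nonneg.mpr hz1)]
    nlinarith
  -- the decomposition of the two vectors
  have v1 : W.e (DF ω F P ψ z) = ω • W.e (px φ ψ z) +
      (W.e (dv F (qx φ) ψ z) + W.e (DF ω F (fun ψ z => W.SX (q' ψ z)) ψ z)) := by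
    rw [e1, Pi.add_apply, Pi.add_apply, map_add]
    have h1 : DF ω F (qx φ) ψ z = ω • px φ ψ z + dv F (qx φ) ψ z := by
      unfold DF
      rw [hdq]
    rw [h1, map_add, map_smul, ← add_assoc]
  have v2 : W.R (W.e (q ψ z)) = (ω ^ 2) • W.R (W.e (qx φ ψ z)) + W.R (W.e (q' ψ z)) := by
    rw [hq, map_add, map_smul, map_add, map_smul]
  rw [v1, v2]
  refine two_sq _ _ _ _ ω s r hω hr0 hrs ?_ ?_ ?_
  · have h1 : ‖(ω ^ 2) • W.R (W.e (qx φ ψ z))‖ ^ 2 = ω ^ 2 * ‖W.e (qx φ ψ z)‖ ^ 2 := by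
      rw [← real_inner_self_eq_norm_sq, ← real_inner_self_eq_norm_sq, real_inner_smul_left,
        real_inner_smul_right, W.prp.R_symm, W.prp.RR, ← real_inner_smul_right (W.e (qx φ ψ z)), hSe]
    have h5 : ‖W.e (qx φ ψ z)‖ ^ 2 + ‖W.e (px φ ψ z)‖ ^ 2 = s := hsq hE.1 ψ z
    rw [h1, norm_smul, mul_pow, Real.norm_eq_abs, sq_abs, ← mul_add, ← h5]
    ring
  · refine (norm_add_le _ _).trans ?_
    have t1 := (b1 ψ z hz1).trans (hcube C1 hC1 (by rw [hC]; linarith))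
    have t2 := (b2 ψ z hz1).trans (hcube C2 hC2 (by rw [hC]; linarith))
    refine (add_le_add t1 t2).trans ?_
    have t3 : C1 * ‖z‖ * r + C2 * ‖z‖ * r = (C1 + C2) * ‖z‖ * r := by ring
    rw [t3]
    refine mul_le_mul_of_nonneg_right (le_trans ?_ hz3) hr0
    exact mul_le_mul_of_nonneg_right (by rw [hC]; linarith) (norm_nonneg _)
  · refine ((b3 ψ z hz1).trans (hcube C3 hC3 (by rw [hC]; linarith))).trans ?_
    refine mul_le_mul_of_nonneg_right (le_trans ?_ hz3) hr0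
    exact mul_le_mul_of_nonneg_right (by rw [hC]; linarith) (norm_nonneg _)

end

end Pool.Agent.BEN.H60
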